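import Mathlib

set_option autoImplicit false

/-!
# The edge cover polynomial has at least `δ` distinct roots (MP_a87573_co)
-/

namespace Pool.Agent.Results.MP_a87573_co.DistinctRoots

open Polynomial

open Classical in
/-- The edge cover polynomial: sum of `x ^ |S|` over the sets `S` of edges such that every
vertex lies on an edge of `S`. -/
noncomputable def edgeCover {V : Type} [Fintype V] (G : SimpleGraph V) : ℤ[X] :=
  ∑ S ∈ G.edgeFinset.powerset.filter (fun S => ∀ v : V, ∃ e ∈ S, v ∈ e), X ^ S.card

/-- A monic polynomial `X ^ m + R` with `deg R ≤ m - d`, not equal to `X ^ m`, has at least `d`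
distinct roots. -/
theorem distinct_of_gap (m d : ℕ) (hd : d ≤ m) (R : ℂ[X]) (hR : R ≠ 0)
    (hdeg : R.natDegree ≤ m - d) (hd0 : 0 < d) :
    d ≤ (X ^ m + R).roots.toFinset.card := by
  classical
  set P : ℂ[X] := X ^ m + R with hP
  have hRm : R.natDegree < m := by omega
  have hmonic : P.Monic := monic_X_pow_add (by
    rw [degree_eq_natDegree hR]
    exact_mod_cast hRm)
  have hPdeg : P.natDegree = m := by
    rw [hP]
    rw [natDegree_add_eq_left_of_natDegree_lt (by rw [natDegree_X_pow]; exact hRm),
      natDegree_X_pow]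
  have hP0 : P ≠ 0 := hmonic.ne_zero
  set Q : ℂ[X] := ∏ r ∈ P.roots.toFinset, (X - C r) with hQ
  have hQm : Q.Monic := monic_prod_of_monic _ _ (fun r _ => monic_X_sub_C r)
  have hQdeg : Q.natDegree = P.roots.toFinset.card := by
    rw [hQ]
    exact natDegree_prod_of_monic _ _ (fun r _ => monic_X_sub_C r) |>.trans (by simp)
  have hder : derivative P ≠ 0 := by
    intro h
    have := natDegree_eq_zero_of_derivative_eq_zero h
    omega
  -- P divides P' Q
  have hdvd : P ∣ derivative P * Q := by
    rw [IsAlgClosed.dvd_iff_roots_le_roots hP0 (mul_ne_zero hder hQm.ne_zero),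
      Multiset.le_iff_count]
    intro a
    rw [count_roots, count_roots, rootMultiplicity_mul (mul_ne_zero hder hQm.ne_zero)]
    by_cases ha : P.IsRoot a
    · rw [derivative_rootMultiplicity_of_root ha]
      have h1 : 0 < rootMultiplicity a Q := by
        rw [rootMultiplicity_pos hQm.ne_zero, IsRoot, hQ, eval_prod]
        apply Finset.prod_eq_zero (i := a)
        · rw [Multiset.mem_toFinset, mem_roots hP0]
          exact ha
        · simp
      omega
    · rw [rootMultiplicity_eq_zero ha]
      omega
  obtain ⟨N, hN⟩ := hdvd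
  -- the key identity
  have hkey : (X * derivative P - C (m : ℂ) * P) * Q = (X * N - C (m : ℂ) * Q) * P := by
    calc (X * derivative P - C (m : ℂ) * P) * Q
        = X * (derivative P * Q) - C (m : ℂ) * P * Q := by ring
      _ = X * (P * N) - C (m : ℂ) * P * Q := by rw [hN]
      _ = (X * N - C (m : ℂ) * Q) * P := by ring
  have hE : X * derivative P - C (m : ℂ) * P = X * derivative R - C (m : ℂ) * R := by
    rw [hP, derivative_add, derivative_X_pow]
    rcases Nat.eq_zero_or_pos m with h | h
    · omega
    · obtain ⟨k, rfl⟩ := Nat.exists_eq_succ_of_ne_zero h.ne'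
      simp only [Nat.succ_eq_add_one, Nat.add_sub_cancel, map_natCast]
      ring
  have hEne : X * derivative R - C (m : ℂ) * R ≠ 0 := by
    intro h
    have h1 := congrArg (fun p : ℂ[X] => p.coeff R.natDegree) h
    simp only [coeff_sub, coeff_C_mul, coeff_zero] at h1
    have h2 : (X * derivative R).coeff R.natDegree = (R.natDegree : ℂ) * R.coeff R.natDegree := by
      rcases Nat.eq_zero_or_pos R.natDegree with h0 | h0
      · rw [h0]
        simp
      · obtain ⟨k, hk⟩ := Nat.exists_eq_succ_of_ne_zero h0.ne'
        rw [hk, Nat.succ_eq_add_one, coeff_X_mul, coeff_derivative]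
        push_cast
        ring
    rw [h2, ← sub_mul] at h1
    have h3 : R.coeff R.natDegree ≠ 0 := by
      rw [coeff_natDegree]; exact leadingCoeff_ne_zero.2 hR
    have h4 := (mul_eq_zero.1 h1).resolve_right h3
    rw [sub_eq_zero] at h4
    have h5 : R.natDegree = m := by exact_mod_cast h4
    omega
  rw [hE] at hkey
  have hLne : (X * derivative R - C (m : ℂ) * R) * Q ≠ 0 := mul_ne_zero hEne hQm.ne_zero
  have hRne : X * N - C (m : ℂ) * Q ≠ 0 := by
    intro h
    rw [h, zero_mul] at hkey
    exact hLne hkey
  have h1 : ((X * derivative R - C (m : ℂ) * R) * Q).natDegree ≤ (m - d) + Q.natDegree := by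
    refine natDegree_mul_le.trans (Nat.add_le_add_right ?_ _)
    refine (natDegree_sub_le _ _).trans (max_le ?_ ?_)
    · by_cases hR0 : R.natDegree = 0
      · have : derivative R = 0 := by
          rw [eq_C_of_natDegree_eq_zero hR0, derivative_C]
        rw [this, mul_zero, natDegree_zero]
        omega
      · refine natDegree_mul_le.trans ?_
        rw [natDegree_X]
        have := natDegree_derivative_lt hR0
        omega
    · exact (natDegree_C_mul_le _ _).trans hdeg
  have h2 : m ≤ ((X * N - C (m : ℂ) * Q) * P).natDegree := by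
    rw [natDegree_mul hRne hP0, hPdeg]
    omega
  rw [← hkey] at h2
  rw [← hQdeg]
  omega

open Classical in
/-- the edges avoiding a set of vertices -/
noncomputable def avoid {V : Type} [Fintype V] (G : SimpleGraph V) (S : Finset V) :
    Finset (Sym2 V) := G.edgeFinset.filter (fun e => ∀ v ∈ S, v ∉ e)

open Classical in
theorem aeval_edgeCover {V : Type} [Fintype V] (G : SimpleGraph V) {R : Type*} [CommRing R]
    (x : R) : aeval x (edgeCover G) =
      ∑ S : Finset V, (-1) ^ S.card * (1 + x) ^ (avoid G S).card := by
  have h1 : aeval x (edgeCover G) = ∑ F ∈ G.edgeFinset.powerset,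
      ∑ S : Finset V, if (∀ v ∈ S, ∀ e ∈ F, v ∉ e) then (-1) ^ S.card * x ^ F.card else 0 := by
    rw [edgeCover, map_sum, Finset.sum_filter]
    refine Finset.sum_congr rfl fun F _ => ?_
    rw [← Finset.sum_filter]
    have h2 : (Finset.univ.filter (fun S : Finset V => ∀ v ∈ S, ∀ e ∈ F, v ∉ e)) =
        (Finset.univ.filter (fun v : V => ∀ e ∈ F, v ∉ e)).powerset := by
      ext S
      simp only [Finset.mem_filter, Finset.mem_univ, true_and, Finset.mem_powerset,
        Finset.subset_iff]
    rw [h2, ← Finset.sum_mul]
    have h3 : (∑ S ∈ (Finset.univ.filter (fun v : V => ∀ e ∈ F, v ∉ e)).powerset,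
        (-1 : R) ^ S.card) = if (Finset.univ.filter (fun v : V => ∀ e ∈ F, v ∉ e)) = ∅
          then 1 else 0 := by
      have h4 := @Finset.sum_powerset_neg_one_pow_card V _
        (Finset.univ.filter (fun v : V => ∀ e ∈ F, v ∉ e))
      have h5 := congrArg (Int.cast : ℤ → R) h4
      push_cast at h5
      rw [h5]
    rw [h3]
    have h6 : (Finset.univ.filter (fun v : V => ∀ e ∈ F, v ∉ e)) = ∅ ↔
        ∀ v : V, ∃ e ∈ F, v ∈ e := by
      rw [Finset.filter_eq_empty_iff]
      constructor
      · intro h v
        have := h (Finset.mem_univ v)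
        push Not at this
        exact this
      · intro h v _ hv
        obtain ⟨e, he, hve⟩ := h v
        exact hv e he hve
    by_cases hc : ∀ v : V, ∃ e ∈ F, v ∈ e
    · rw [if_pos hc, if_pos (h6.2 hc)]
      simp
    · rw [if_neg hc, if_neg (fun h => hc (h6.1 h))]
      simp
  rw [h1, Finset.sum_comm]
  refine Finset.sum_congr rfl fun S _ => ?_
  rw [← Finset.sum_filter]
  have h2 : G.edgeFinset.powerset.filter (fun F => ∀ v ∈ S, ∀ e ∈ F, v ∉ e) =
      (avoid G S).powerset := by
    ext F
    simp only [Finset.mem_filter, Finset.mem_powerset, avoid, Finset.subset_iff]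
    constructor
    · rintro ⟨h3, h4⟩ e he
      exact ⟨h3 he, fun v hv => h4 v hv e he⟩
    · intro h3
      exact ⟨fun e he => (h3 he).1, fun v hv e he => (h3 he).2 v hv⟩
  rw [h2, ← Finset.mul_sum]
  have h4 := Finset.sum_pow_mul_eq_add_pow x 1 (avoid G S)
  simp only [one_pow, mul_one] at h4
  rw [h4, add_comm]

open Classical in
theorem avoid_card {V : Type} [Fintype V] (G : SimpleGraph V) (S : Finset V) (hS : S.Nonempty) :
    (avoid G S).card + G.minDegree ≤ G.edgeFinset.card := by
  obtain ⟨v, hv⟩ := hS
  have h1 : avoid G S ⊆ G.edgeFinset \ G.incidenceFinset v := by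
    intro e he
    rw [avoid, Finset.mem_filter] at he
    rw [Finset.mem_sdiff]
    refine ⟨he.1, fun h => he.2 v hv ?_⟩
    rw [SimpleGraph.mem_incidenceFinset] at h
    exact h.2
  have h2 := Finset.card_le_card h1
  rw [Finset.card_sdiff_of_subset (G.incidenceFinset_subset v),
    SimpleGraph.card_incidenceFinset_eq_degree] at h2
  have h3 := G.minDegree_le_degree v
  have h4 := Finset.card_le_card (G.incidenceFinset_subset v)
  rw [SimpleGraph.card_incidenceFinset_eq_degree] at h4
  omega

open Classical in
/-- The edge cover polynomial of a finite simple graph `G` has at least `δ(G)` distinct complex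
roots. -/
theorem result : ∀ (V : Type) [Fintype V] (G : SimpleGraph V),
    (G.minDegree : ℕ∞) ≤ Set.encard {z : ℂ | aeval z (edgeCover G) = 0} := by
  intro V _ G
  rcases Nat.eq_zero_or_pos G.minDegree with h0 | hpos
  · rw [h0]
    exact zero_le
  -- the shifted polynomial
  set m := G.edgeFinset.card with hm
  set R : ℂ[X] := ∑ S ∈ (Finset.univ : Finset (Finset V)).erase ∅,
    (-1) ^ S.card * X ^ (avoid G S).card with hR
  have hav : avoid G ∅ = G.edgeFinset := by
    simp [avoid]
  have heval : ∀ z : ℂ, aeval z (edgeCover G) = (X ^ m + R).eval (z + 1) := by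
    intro z
    rw [aeval_edgeCover, ← Finset.add_sum_erase _ _ (Finset.mem_univ ∅), hav, hR, eval_add,
      eval_finset_sum]
    simp only [Finset.card_empty, pow_zero, one_mul, eval_pow, eval_X, eval_mul, eval_neg, eval_one]
    rw [add_comm 1 z, hm]
  have hV : Nonempty V := by
    by_contra hV
    rw [not_nonempty_iff] at hV
    have : G.minDegree = 0 := by simp
    omega
  obtain ⟨v₀⟩ := hV
  have hdm : G.minDegree ≤ m := by
    have := avoid_card G {v₀} (Finset.singleton_nonempty _)
    omega
  have hRdeg : R.natDegree ≤ m - G.minDegree := by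
    rw [hR]
    apply natDegree_sum_le_of_forall_le
    intro S hS
    have h1 := avoid_card G S (Finset.nonempty_iff_ne_empty.2 (Finset.ne_of_mem_erase hS))
    refine natDegree_mul_le.trans ?_
    rw [natDegree_X_pow]
    have h2 : ((-1 : ℂ[X]) ^ S.card).natDegree = 0 := by
      rcases neg_one_pow_eq_or ℂ[X] S.card with h | h <;> rw [h] <;> simp
    omega
  have hz : aeval (0 : ℂ) (edgeCover G) = 0 := by
    rw [edgeCover, map_sum]
    refine Finset.sum_eq_zero fun S hS => ?_
    obtain ⟨e, he, _⟩ := (Finset.mem_filter.1 hS).2 v₀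
    simp only [map_pow, aeval_X]
    exact zero_pow (Finset.card_ne_zero_of_mem he)
  have hRne : R ≠ 0 := by
    intro h
    have h1 := heval 0
    rw [hz, h] at h1
    simp at h1
  have hmain := distinct_of_gap m G.minDegree hdm R hRne hRdeg hpos
  have hPne : (X ^ m + R) ≠ 0 := by
    intro h
    rw [h] at hmain
    simp at hmain
    omega
  have hset : {z : ℂ | aeval z (edgeCover G) = 0} =
      (fun w : ℂ => w - 1) '' ((X ^ m + R).roots.toFinset : Set ℂ) := by
    ext z
    simp only [Set.mem_ofPred_eq, Set.mem_image, Finset.mem_coe, Multiset.mem_toFinset,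
      mem_roots hPne, IsRoot]
    constructor
    · intro h
      exact ⟨z + 1, by rw [← heval]; exact h, by ring⟩
    · rintro ⟨w, hw, rfl⟩
      rw [heval]
      simpa using hw
  rw [hset, Set.InjOn.encard_image (sub_left_injective.injOn), Set.encard_coe_eq_coe_finsetCard]
  exact_mod_cast hmain

end Pool.Agent.Results.MP_a87573_co.DistinctRoots
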